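import Pool.Agent.H717.PR.Stm

/-!
# The two forcing gadgets
-/

set_option autoImplicit false

namespace Pool.Agent.H922.PR

open Pool.Agent.H717.PR

theorem t_forceNear : S_forceNear := by
  intro V d dmin dmax hd hle u v a b c e hab hce hx hxy huv
  have key : ∀ x y : V, (d x u ≤ dmax ∧ d x v ≤ dmax) → (d y u ≤ dmax ∧ d y v ≤ dmax) →
      dmax < d x y → d u v < dmin := by
    intro x y h1 h2 h3
    have h4 := hd.fp x u y v
    rw [hd.comm u y] at h4
    have h5 : max (d x u + d y v) (d x v + d y u) ≤ dmax + dmax :=
      max_le (add_le_add h1.1 h2.2) (add_le_add h1.2 h2.1)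
    rcases huv with h | h
    · exact h
    · exfalso
      linarith
  have ha := hx a (by simp)
  have hb := hx b (by simp)
  have hc := hx c (by simp)
  have he := hx e (by simp)
  rcases hxy a (by simp) c (by simp) with h1 | h1
  · rcases hxy b (by simp) e (by simp) with h2 | h2
    · rcases hxy a (by simp) e (by simp) with h3 | h3
      · rcases hxy b (by simp) c (by simp) with h4 | h4
        · exfalso
          have h5 := hd.fp a c b e
          rw [hd.comm c b] at h5
          have h6 : max (d a c + d b e) (d a e + d b c) < dmin + dmin :=
            max_lt (add_lt_add h1 h2) (add_lt_add h3 h4)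
          linarith
        · exact key b c hb hc h4
      · exact key a e ha he h3
    · exact key b e hb he h2
  · exact key a c ha hc h1

theorem t_forceFar : S_forceFar := by
  intro V d dmin hd p q x y hxp hyq hqx hpy hxy hpq
  have h1 := hd.fp x y p q
  rw [hd.comm x q, hd.comm y p] at h1
  have h2 : max (d x y + d p q) (d q x + d p y) < dmin + dmin :=
    max_lt (add_lt_add hxy hpq) (add_lt_add hqx hpy)
  linarith

end Pool.Agent.H922.PR
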